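import Mathlib
import Pool.Agent.Helper26.Mds.Main

/-!
The MDS conjecture (representability of uniform matroids over fields of odd order `q`, of
characteristic `p`) for all ranks `r` outside a middle window `|q + 2 - 2 r| < (q + 14 - 8 p) /
(2 p - 3)`. The window is empty if `q <= 10 p - 17`.

Proof: see the files in `Pool/Agent/Helper26/Mds`. An arc of size `q + 2` in dimension `k` gives, by
an identity on the projective line over `F`, a nonzero family of scalars which is killed by the
operator that erases one element and is a cocycle of a Koszul type complex of the Gale dual. The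
exactness of the Koszul type complex and of the p-complex of the Boolean lattice force the family
to vanish.
-/

set_option autoImplicit false

namespace Pool.Agent.Results.MP_6f5060_co.MdsMostRanks

/-- Let `F` be a finite field of odd order `q` and characteristic `p`. If `2 ≤ r`, `r + 2 ≤ n` and
`q + 14 - 8 p ≤ |q + 2 - 2 r| (2 p - 3)`, then `U_{r,n}` is representable over `F` if and only if
`n ≤ q + 1`. -/
theorem result :
    ∀ (F : Type) [Field F] [Fintype F], Odd (Fintype.card F) →
      ∀ p : ℕ, CharP F p → ∀ r n : ℕ, 2 ≤ r → r + 2 ≤ n →
        (Fintype.card F : ℤ) + 14 - 8 * (p : ℤ)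
            ≤ |(Fintype.card F : ℤ) + 2 - 2 * (r : ℤ)| * (2 * (p : ℤ) - 3) →
          ((∃ v : Fin n → (Fin r → F),
              ∀ s : Finset (Fin n), s.card = r →
                LinearIndependent F (fun i : s => v i)) ↔
            n ≤ Fintype.card F + 1) := by
  intro F _ _ hodd p hp r n hr hn hcond
  have hpp : p.Prime := by
    rcases CharP.char_is_prime_or_zero F p with h | h
    · exact h
    · exact absurd h (CharP.char_ne_zero_of_finite F p)
  have : Fact p.Prime := ⟨hpp⟩
  exact Pool.Helper26.Mds.main hodd p r n hr hn hcond

end Pool.Agent.Results.MP_6f5060_co.MdsMostRanks
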